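import Pool.Agent.H54.WB.TargetsA

/-! Row DDU of wdb_modules (MP_64fb07_lc): the size of the core. -/

set_option autoImplicit false

namespace Pool.Agent.H1.WB

open Pool.Agent.H54.WB

theorem dd_succ (L K : ℕ) : dd (L + 1) K = dd L (Nat.clog 2 K) := rfl

theorem Tw_succ (L d : ℕ) : Tw (L + 1) d = 2 ^ Tw L d := rfl

theorem Tw_mono (L : ℕ) : ∀ d e, d ≤ e → Tw L d ≤ Tw L e := by
  induction L with
  | zero => exact fun d e h => h
  | succ L ih => exact fun d e h => Nat.pow_le_pow_right (by norm_num) (ih d e h)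

theorem le_Tw (L d : ℕ) : d ≤ Tw L d := by
  induction L with
  | zero => exact le_rfl
  | succ L ih => exact ih.trans Nat.lt_two_pow_self.le

theorem pf_DDU : T_DDU := by
  refine ⟨fun L => ?_, fun L => ?_, Tw_mono, le_Tw⟩
  · induction L with
    | zero =>
      intro d K hd h1 h2
      have h3 : d - 1 < K := h1
      have h4 : K ≤ d := h2
      show d = K
      omega
    | succ L ih =>
      intro d K hd h1 h2
      rw [dd_succ]
      rw [Tw_succ] at h1 h2
      exact ih d _ hd ((Nat.lt_clog_iff_pow_lt (by norm_num)).2 h1)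
        ((Nat.clog_le_iff_le_pow (by norm_num)).2 h2)
  · induction L with
    | zero =>
      intro K h
      have h3 : 0 < K := h
      exact ⟨h3, by show K - 1 < K; omega, le_rfl⟩
    | succ L ih =>
      intro K h
      rw [Tw_succ] at h
      obtain ⟨h1, h2, h3⟩ := ih _ ((Nat.lt_clog_iff_pow_lt (by norm_num)).2 h)
      rw [dd_succ, Tw_succ, Tw_succ]
      exact ⟨h1, (Nat.lt_clog_iff_pow_lt (by norm_num)).1 h2,
        (Nat.clog_le_iff_le_pow (by norm_num)).1 h3⟩

end Pool.Agent.H1.WB
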