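import Pool.Agent.H54.WB.TargetsB

/-! Row GEX of wdb_modules (MP_64fb07_lc): the grammars exist. -/

set_option autoImplicit false

namespace Pool.Agent.H1.WB

open Pool.Agent.H54.WB Pool.Agent.H8.VR

/-- the condition on the points -/
def CP (W : Width) (k : ℕ) (x : Pt (So k) (Co k)) : Prop :=
  ∃ i : Fin k, x.q i = false ∧ (x.s = .inr i ∨ ∃ l : Fin (k + 1), x.s = .inl l ∧
      (W.lev = true → l.val ≤ i.val) ∧ (W.lev = false → l.val = 0))

/-- the condition on the operations -/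
def CO (W : Width) (k : ℕ) (o : Op (So k) (Co k)) : Prop :=
  o.D = {n | 0 < n} ∧
    ((W.lin = false ∧ (∃ l, o.s = .inl l ∧ o.t = .inl l ∧ o.u = .inl l) ∧
      o.l = (fun _ _ _ => False) ∧ o.r = (fun _ _ _ => False) ∧ o.f = id ∧ o.g = id) ∨
    ∃ (i : Fin k) (l l' : Fin (k + 1)), o.s = .inr i ∧ o.t = .inl l' ∧ o.u = .inl l ∧
      (W.lev = true → l.val ≤ i.val ∧ l'.val = i.val + 1) ∧
      (W.lev = false → l.val = 0 ∧ l'.val = 0) ∧
      o.l = (fun j _ q => j = 0 ∧ q i = true) ∧ o.r = (fun j _ q => j = 0 ∧ q i = true) ∧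
      o.f = id ∧ o.g = fun q j => if j = i then false else q j)

theorem finP (k m : ℕ) :
    {x : Pt (So k) (Co k) | (∀ i, ¬ x.lp i) ∧ ∀ i, m ≤ i → ¬ x.un i}.Finite := by
  refine (Set.finite_range (fun p : So k × Co k × (Fin m → Prop) =>
    (⟨p.1, p.2.1, fun j => ∃ h : j < m, p.2.2 ⟨j, h⟩, fun _ => False⟩ :
      Pt (So k) (Co k)))).subset ?_
  rintro ⟨s, q, un, lp⟩ ⟨h1, h2⟩
  refine ⟨(s, q, fun j => un j), ?_⟩
  have e1 : (fun j => ∃ h : j < m, un j) = un := by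
    funext j
    apply propext
    constructor
    · rintro ⟨-, h⟩
      exact h
    · intro h
      refine ⟨?_, h⟩
      by_contra hj
      exact h2 j (not_lt.1 hj) h
  have e2 : (fun _ : ℕ => False) = lp := by
    funext j
    exact propext ⟨False.elim, fun h => h1 j h⟩
  show (⟨s, q, fun j => ∃ h : j < m, un j, fun _ => False⟩ : Pt (So k) (Co k)) = _
  rw [e1, e2]

theorem finO (W : Width) (k : ℕ) : {o : Op (So k) (Co k) | CO W k o}.Finite := by
  refine (Set.finite_range (fun p : Fin (k + 1) ⊕ (Fin k × Fin (k + 1) × Fin (k + 1)) =>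
    match p with
    | .inl l => (⟨.inl l, .inl l, .inl l, fun _ _ _ => False, fun _ _ _ => False, id, id,
        {n | 0 < n}⟩ : Op (So k) (Co k))
    | .inr (i, l, l') => (⟨.inr i, .inl l', .inl l, fun j _ q => j = 0 ∧ q i = true,
        fun j _ q => j = 0 ∧ q i = true, id, fun q j => if j = i then false else q j,
        {n | 0 < n}⟩ : Op (So k) (Co k)))).subset ?_
  rintro ⟨s, t, u, l, r, f, g, D⟩ ⟨hD, ⟨-, ⟨l0, h1, h2, h3⟩, h4, h5, h6, h7⟩ |
    ⟨i, l0, l1, h1, h2, h3, -, -, h4, h5, h6, h7⟩⟩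
  · refine ⟨.inl l0, ?_⟩
    simp only at hD h1 h2 h3 h4 h5 h6 h7
    subst hD h1 h2 h3 h4 h5 h6 h7
    rfl
  · refine ⟨.inr (i, l0, l1), ?_⟩
    simp only at hD h1 h2 h3 h4 h5 h6 h7
    subst hD h1 h2 h3 h4 h5 h6 h7
    rfl

theorem pf_GEX : T_GEX := by
  classical
  intro W k m
  have hP : {x : Pt (So k) (Co k) | ((∀ i, ¬ x.lp i) ∧ ∀ i, m ≤ i → ¬ x.un i) ∧
      CP W k x}.Finite := (finP k m).subset fun x hx => hx.1
  have hO := finO W k
  refine ⟨⟨hP.toFinset.toList, hO.toFinset.toList⟩, ?_, ?_, ?_⟩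
  · intro x h1 h2
    show x ∈ hP.toFinset.toList ↔ _
    rw [Finset.mem_toList, Set.Finite.mem_toFinset]
    exact ⟨fun h => h.2, fun h => ⟨⟨h1, h2⟩, h⟩⟩
  · intro x hx
    have hx' : x ∈ hP.toFinset.toList := hx
    rw [Finset.mem_toList, Set.Finite.mem_toFinset] at hx'
    exact hx'.1
  · intro o
    show o ∈ hO.toFinset.toList ↔ _
    rw [Finset.mem_toList, Set.Finite.mem_toFinset]
    exact Iff.rfl

end Pool.Agent.H1.WB
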