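import Pool.Agent.H54.WB.TargetsB

/-! Row LOW of wdb_modules (MP_64fb07_lc): functions below all iterated logarithms. -/

set_option autoImplicit false

namespace Pool.Agent.H1.WB

open Pool.Agent.H54.WB

theorem ilog_succ (k n : ℕ) : ilog (k + 1) n = ilog k (Nat.log 2 n) := rfl

theorem ilog_succ' (k n : ℕ) : ilog (k + 1) n = Nat.log 2 (ilog k n) :=
  Function.iterate_succ_apply' _ _ _

theorem ilog_add (a b n : ℕ) : ilog (a + b) n = ilog a (ilog b n) :=
  Function.iterate_add_apply _ _ _ _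

theorem ilog_zero (k : ℕ) : ilog k 0 = 0 := by
  induction k with
  | zero => rfl
  | succ k ih => rw [ilog_succ, Nat.log_zero_right, ih]

theorem le_ilog (k : ℕ) : ∀ M n : ℕ, Tw k M ≤ n → M ≤ ilog k n := by
  induction k with
  | zero => exact fun M n h => h
  | succ k ih =>
    intro M n h
    rw [ilog_succ]
    exact ih M _ (Nat.le_log_of_pow_le (by norm_num) h)

theorem Tw_ilog (h : ℕ) : ∀ x : ℕ, 1 ≤ ilog h x → Tw h (ilog h x) ≤ x := by
  induction h with
  | zero => exact fun x _ => le_rfl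
  | succ h ih =>
    intro x hx
    rw [ilog_succ] at hx ⊢
    have hx0 : x ≠ 0 := by
      rintro rfl
      rw [Nat.log_zero_right, ilog_zero] at hx
      omega
    calc Tw (h + 1) (ilog h (Nat.log 2 x)) = 2 ^ Tw h (ilog h (Nat.log 2 x)) := rfl
      _ ≤ 2 ^ Nat.log 2 x := Nat.pow_le_pow_right (by norm_num) (ih _ hx)
      _ ≤ x := Nat.pow_log_le_self 2 hx0

theorem pf_LOW (hDDU : T_DDU) : T_LOW := by
  intro f hf h c j
  obtain ⟨n₁, hn₁⟩ := hf (h + j + 1)
  refine ⟨max n₁ (Tw (h + j) (2 ^ (c + 1))), fun n hn => ?_⟩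
  have h1 := hn₁ n ((le_max_left _ _).trans hn)
  have h2 := le_ilog (h + j) _ n ((le_max_right _ _).trans hn)
  rw [ilog_succ'] at h1
  obtain ⟨y, hy⟩ : ∃ y, y = ilog (h + j) n := ⟨_, rfl⟩
  rw [← hy] at h1 h2
  have hy0 : y ≠ 0 := by
    have : 0 < 2 ^ (c + 1) := by positivity
    omega
  have h3 : c + 1 ≤ Nat.log 2 y := Nat.le_log_of_pow_le (by norm_num) h2
  have h4 : 2 ^ Nat.log 2 y ≤ y := Nat.pow_log_le_self 2 hy0
  have h5 : ∀ z : ℕ, 1 ≤ z → 2 * z ≤ 2 ^ z := by
    intro z hz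
    induction z, hz using Nat.le_induction with
    | base => norm_num
    | succ z hz ih =>
      rw [pow_succ]
      omega
  have h6 := h5 (Nat.log 2 y) (by omega)
  have h7 : f n + c ≤ y := by omega
  have h8 : y = ilog h (ilog j n) := by rw [hy, ilog_add]
  refine (hDDU.2.2.1 h _ _ h7).trans ?_
  rw [h8]
  refine Tw_ilog h _ ?_
  rw [← h8]
  omega

end Pool.Agent.H1.WB
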