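import Pool.Agent.H54.WB.TargetsC

/-!
# From trees of intervals to NLC-expressions (row MW2 of wdb_modules)
-/

set_option autoImplicit false

namespace Pool.Agent.H1.WB

open Pool.Agent.H54.WB Pool.Agent.H8.VR Pool.Agent.H8.MC

section
variable {k n : ℕ}

/-- the interval -/
def IV (n a b : ℕ) : Set (Fin n) := {x | a ≤ x.1 ∧ x.1 ≤ b}

/-- a colouring of the interval by the neighbourhoods outside of the interval -/
def ColO (G : SimpleGraph (Fin n)) (a b : ℕ) (c : Fin n → Fin k) : Prop :=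
  ∀ x ∈ IV n a b, ∀ y ∈ IV n a b,
    (c x = c y ↔ ∀ z : Fin n, (z.1 < a ∨ b < z.1) → (G.Adj x z ↔ G.Adj y z))

theorem exists_colO (G : SimpleGraph (Fin n)) (T : ℕ → ℕ → Prop) (hT : IntTree n T)
    (hF : FewCl k n (fun x y => ∃ (hx : x < n) (hy : y < n), G.Adj ⟨x, hx⟩ ⟨y, hy⟩) T)
    (a b : ℕ) (hab : T a b) : ∃ c : Fin n → Fin k, ColO G a b c := by
  classical
  obtain ⟨hle, hbn⟩ := hT.le a b hab
  obtain ⟨ρ, h1, h2⟩ := hF a b hab
  refine ⟨fun x => if h : a ≤ x.1 ∧ x.1 ≤ b then ⟨ρ x.1, (h1 x.1 h.1 h.2).1⟩ else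
    ⟨ρ a, (h1 a le_rfl hle).1⟩, ?_⟩
  intro x hx y hy
  have hx' : a ≤ x.1 ∧ x.1 ≤ b := hx
  have hy' : a ≤ y.1 ∧ y.1 ≤ b := hy
  simp only [dif_pos hx', dif_pos hy', Fin.mk.injEq]
  rw [h2 x.1 y.1 hx.1 hx.2 hy.1 hy.2]
  constructor
  · intro h z hz
    have h3 := h z.1 z.2 hz
    constructor
    · intro h4
      obtain ⟨_, _, h5⟩ := h3.1 ⟨x.2, z.2, h4⟩
      exact h5
    · intro h4
      obtain ⟨_, _, h5⟩ := h3.2 ⟨y.2, z.2, h4⟩
      exact h5
  · intro h z hz hz'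
    have h3 := h ⟨z, hz⟩ hz'
    constructor
    · rintro ⟨_, _, h5⟩
      exact ⟨y.2, hz, h3.1 h5⟩
    · rintro ⟨_, _, h5⟩
      exact ⟨x.2, hz, h3.2 h5⟩

theorem IV_self (n : ℕ) {a : ℕ} (ha : a < n) : IV n a a = {(⟨a, ha⟩ : Fin n)} := by
  ext x
  constructor
  · intro h
    exact Fin.ext (le_antisymm h.2 h.1)
  · rintro rfl
    exact ⟨le_rfl, le_rfl⟩

theorem IV_union (n : ℕ) {a b s : ℕ} (h1 : a ≤ s) (h2 : s < b) :
    IV n a s ∪ IV n (s + 1) b = IV n a b := by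
  ext x
  constructor
  · rintro (h | h)
    · exact ⟨h.1, h.2.trans h2.le⟩
    · exact ⟨h1.trans ((Nat.le_succ s).trans h.1), h.2⟩
  · intro h
    rcases le_or_gt x.1 s with h3 | h3
    · exact Or.inl ⟨h.1, h3⟩
    · exact Or.inr ⟨h3, h.2⟩

theorem IV_disj (n a b s : ℕ) : Disjoint (IV n a s) (IV n (s + 1) b) := by
  rw [Set.disjoint_left]
  intro x h h'
  have h1 := h.2
  have h2 := h'.1
  omega

/-- the recolouring -/
theorem exists_rec {A : Type} (X : Set A) (c₁ c : A → Fin k)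
    (h : ∀ x ∈ X, ∀ y ∈ X, c₁ x = c₁ y → c x = c y) :
    ∃ f : Fin k → Fin k, ∀ x ∈ X, c x = f (c₁ x) := by
  classical
  refine ⟨fun p => if hp : ∃ x ∈ X, c₁ x = p then c hp.choose else p, fun x hx => ?_⟩
  have hp : ∃ y ∈ X, c₁ y = c₁ x := ⟨x, hx, rfl⟩
  simp only [dif_pos hp]
  exact h x hx _ hp.choose_spec.1 hp.choose_spec.2.symm

theorem main_MW2 (G : SimpleGraph (Fin n)) (T : ℕ → ℕ → Prop) (hT : IntTree n T)
    (hF : FewCl k n (fun x y => ∃ (hx : x < n) (hy : y < n), G.Adj ⟨x, hx⟩ ⟨y, hy⟩) T) :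
    ∀ d a b : ℕ, b - a ≤ d → T a b → ∃ c : Fin n → Fin k,
      NLC k 1 (fun _ => G.Adj) (IV n a b) c ∧ ColO G a b c := by
  intro d
  induction d with
  | zero =>
    intro a b hd hab
    obtain ⟨hle, hbn⟩ := hT.le a b hab
    obtain ⟨c, hc⟩ := exists_colO G T hT hF a b hab
    refine ⟨c, ?_, hc⟩
    have hb : b = a := by omega
    subst hb
    rw [IV_self n hbn]
    exact NLC.pt _ c
  | succ d ih =>
    intro a b hd hab
    obtain ⟨hle, hbn⟩ := hT.le a b hab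
    obtain ⟨c, hc⟩ := exists_colO G T hT hF a b hab
    refine ⟨c, ?_, hc⟩
    rcases Nat.eq_or_lt_of_le hle with hb | hlt
    · subst hb
      rw [IV_self n hbn]
      exact NLC.pt _ c
    · obtain ⟨s, hs1, hs2, hT1, hT2⟩ := hT.split a b hab hlt
      obtain ⟨c₁, hn1, hc1⟩ := ih a s (by omega) hT1
      obtain ⟨c₂, hn2, hc2⟩ := ih (s + 1) b (by omega) hT2
      have e1 : ∀ x ∈ IV n a s, x ∈ IV n a b := fun x hx => ⟨hx.1, hx.2.trans hs2.le⟩
      have e2 : ∀ x ∈ IV n (s + 1) b, x ∈ IV n a b := fun x hx =>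
        ⟨hs1.trans ((Nat.le_succ s).trans hx.1), hx.2⟩
      obtain ⟨f, hf⟩ := exists_rec (IV n a s) c₁ c (by
        intro x hx y hy h
        refine (hc x (e1 x hx) y (e1 y hy)).2 fun z hz => (hc1 x hx y hy).1 h z ?_
        rcases hz with hz | hz
        · exact Or.inl hz
        · exact Or.inr (hs2.trans hz))
      obtain ⟨g, hg⟩ := exists_rec (IV n (s + 1) b) c₂ c (by
        intro x hx y hy h
        refine (hc x (e2 x hx) y (e2 y hy)).2 fun z hz => (hc2 x hx y hy).1 h z ?_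
        rcases hz with hz | hz
        · exact Or.inl (by omega)
        · exact Or.inr hz)
      rw [← IV_union n hs1 hs2]
      have key : ∀ x ∈ IV n a s, ∀ y ∈ IV n (s + 1) b, ∀ x' ∈ IV n a s,
          ∀ y' ∈ IV n (s + 1) b, c₁ x = c₁ x' → c₂ y = c₂ y' → (G.Adj x y ↔ G.Adj x' y') := by
        intro x hx y hy x' hx' y' hy' hxx hyy
        have h1 := (hc1 x hx x' hx').1 hxx y (Or.inr (by have := hy.1; omega))
        have h2 := (hc2 y hy y' hy').1 hyy x' (Or.inl (by have := hx'.2; omega))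
        rw [h1, G.adj_comm x' y, h2, G.adj_comm y' x']
      refine NLC.op (IV n a s) (IV n (s + 1) b) c c₁ c₂ hn1 hn2 (IV_disj n a b s)
        (fun _ p q => ∃ x ∈ IV n a s, ∃ y ∈ IV n (s + 1) b, c₁ x = p ∧ c₂ y = q ∧ G.Adj x y)
        (fun _ p q => ∃ x ∈ IV n a s, ∃ y ∈ IV n (s + 1) b, c₁ x = p ∧ c₂ y = q ∧ G.Adj x y)
        f g ?_ hf hg
      intro x hx y hy i _
      have h3 : G.Adj x y ↔ ∃ x' ∈ IV n a s, ∃ y' ∈ IV n (s + 1) b,
          c₁ x' = c₁ x ∧ c₂ y' = c₂ y ∧ G.Adj x' y' := by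
        constructor
        · intro h
          exact ⟨x, hx, y, hy, rfl, rfl, h⟩
        · rintro ⟨x', hx', y', hy', h4, h5, h6⟩
          exact (key x' hx' y' hy' x hx y hy h4 h5).1 h6
      exact ⟨h3, (G.adj_comm y x).trans h3⟩

end

/-- from trees of intervals to expressions -/
theorem pf_MW2 : T_MW2 := by
  intro k n G T hn hT hF
  obtain ⟨c, h1, -⟩ := main_MW2 G T hT hF (n - 1) 0 (n - 1) (by omega) hT.top
  refine ⟨c, ?_⟩
  have e : IV n 0 (n - 1) = Set.univ := by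
    refine Set.eq_univ_of_forall fun x => ⟨Nat.zero_le _, ?_⟩
    have := x.2
    omega
  rw [e] at h1
  exact h1

end Pool.Agent.H1.WB
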