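import Pool.Agent.H54.WB.TargetsA

/-! Row TSM of wdb_modules (MP_64fb07_lc): the grid of a model. -/

set_option autoImplicit false

namespace Pool.Agent.H1.WB

open Pool.Agent.H54.WB
open Pool.Agent.H8.PL (GridF)

theorem pf_TSM (hORD : T_ORD) (hKE0 : T_KE0) (hKES : T_KES) (hCTT : T_CTT) (hGRD : T_GRD) :
    T_TSM := by
  classical
  intro V Q _ L U Hh Vv E ro bt mk ti hE hL h
  obtain ⟨d, hd⟩ : ∃ d : ℕ, d = {v | ro v = 0}.ncard := ⟨_, rfl⟩
  obtain ⟨rk, h1, h2, h3⟩ := hORD V E _ _ h.chn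
  obtain ⟨hd0, hK0⟩ := hKE0 V Q L U Hh Vv E ro bt mk ti rk hL h h1 h2
  rw [← hd] at hd0 hK0 h3
  have hall : ∀ l ≤ L, LOK L E ro bt rk d l := by
    intro l
    induction l with
    | zero => exact fun _ => hK0
    | succ l ih =>
      intro hl
      exact hKES V Q L U Hh Vv E ro bt mk ti rk d l h hd0 hl (ih (by omega))
  have hLL := hall L le_rfl
  obtain ⟨k, hk⟩ : ∃ k, L = k + 1 := ⟨L - 1, by omega⟩
  have hk' : L - 1 = k := by omega
  -- the coordinates
  obtain ⟨X, hX⟩ : ∃ X : Bool → V → ℕ, ∀ s z, ro z = L + 1 → ∀ y, Dg E ro mk L s z y →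
      X s z = vl E ro bt rk d L y := by
    refine ⟨fun s z => if hz : ro z = L + 1 then vl E ro bt rk d L (h.cel z s hz).choose else 0,
      fun s z hz y hy => ?_⟩
    have e1 : (h.cel z s hz).choose = y := ((h.cel z s hz).choose_spec.2 y hy).symm
    show (if hz : ro z = L + 1 then vl E ro bt rk d L (h.cel z s hz).choose else 0) = _
    rw [dif_pos hz, e1]
  have hex : ∀ s z, ro z = L + 1 → ∃ y, Dg E ro mk L s z y ∧ ro y = L :=
    fun s z hz => by
      obtain ⟨y, hy, -⟩ := h.cel z s hz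
      exact ⟨y, hy, hy.2.1⟩
  obtain ⟨W, H, t, hW, hH, hb, hi, -, hc, ht⟩ := hGRD V Q U Hh Vv _ _ _ _ ti X h.grid
    (fun s z w hz hw => by
      obtain ⟨x, hx, hx'⟩ := hex s z hz
      obtain ⟨y, hy, hy'⟩ := hex s w hw
      rw [hX s z hz x hx, hX s w hw y hy]
      constructor
      · rw [← hLL.sm x y hx' hy']
        constructor
        · intro h4
          exact h4 x y hx hy
        · intro h4 x' y' hx'' hy''
          rw [(h.cel z s hz).unique hx'' hx, (h.cel w s hw).unique hy'' hy]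
          exact h4
      · rw [← hLL.sc k hk x y hx' hy', hk']
        constructor
        · intro h4
          exact h4 x y hx hy
        · intro h4 x' y' hx'' hy''
          rw [(h.cel z s hz).unique hx'' hx, (h.cel w s hw).unique hy'' hy]
          exact h4)
    (fun s z hz => by
      obtain ⟨x, hx, hx'⟩ := hex s z hz
      rw [hX s z hz x hx, ← (hLL.zr k hk x hx').1, hk']
      constructor
      · intro h4
        exact h4 x hx
      · intro h4 x' hx''
        rw [(h.cel z s hz).unique hx'' hx]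
        exact h4)
  have hcard := hCTT V Q L U Hh Vv E ro bt mk ti rk d hE hL h hd.symm h3 hall
  refine ⟨d, W, H, t, hW, hH, hd0, ?_, ?_, ht, hd.symm, ?_⟩
  · obtain ⟨z, y, hz, hy, hhi⟩ := h.hi
    have h4 := (hLL.hi y hy.2.1).1 hhi
    rw [← hX true z hz y hy] at h4
    exact lt_of_le_of_lt h4 (hb z hz).1
  · obtain ⟨z, hz, hz'⟩ := hi (W - 1) (by omega)
    obtain ⟨y, hy, hy'⟩ := hex true z hz
    have h4 := hLL.lt y hy'
    rw [← hX true z hz y hy, hz'] at h4
    omega
  · rw [hcard, hc]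

end Pool.Agent.H1.WB
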