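import Pool.Agent.H54.WB.TargetsB

/-! Row TYC of wdb_modules (MP_64fb07_lc): the number of the types. -/

set_option autoImplicit false

namespace Pool.Agent.H1.WB

open Pool.Agent.H54.WB Pool.Agent.H69.VR

/-- bounded by a tower of constant height -/
def Bd (N : ℕ → ℕ) : Prop := ∃ h c, ∀ k, N k ≤ Tw h (k + c)

theorem two_mul_le_pow (y : ℕ) : 2 * y ≤ 2 ^ y := by
  induction y with
  | zero => norm_num
  | succ y ih =>
    rcases Nat.eq_zero_or_pos y with h | h
    · subst h
      norm_num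
    · rw [pow_succ]
      omega

theorem Tw_le_h (x : ℕ) {h h' : ℕ} (hh : h ≤ h') : Tw h x ≤ Tw h' x := by
  induction h', hh using Nat.le_induction with
  | base => exact le_rfl
  | succ n _ ih => exact ih.trans Nat.lt_two_pow_self.le

theorem Tw_le (hDDU : T_DDU) {h h' x x' : ℕ} (hh : h ≤ h') (hx : x ≤ x') : Tw h x ≤ Tw h' x' :=
  (hDDU.2.2.1 h x x' hx).trans (Tw_le_h x' hh)

theorem Bd.mono {N M : ℕ → ℕ} (hM : Bd M) (h : ∀ k, N k ≤ M k) : Bd N := by
  obtain ⟨a, c, hM⟩ := hM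
  exact ⟨a, c, fun k => (h k).trans (hM k)⟩

theorem Bd.const (q : ℕ) : Bd (fun _ => q) := ⟨0, q, fun k => Nat.le_add_left q k⟩

theorem Bd.idk : Bd (fun k => k) := ⟨0, 0, fun k => le_rfl⟩

theorem Bd.pow {N : ℕ → ℕ} (hN : Bd N) : Bd (fun k => 2 ^ N k) := by
  obtain ⟨h, c, hN⟩ := hN
  exact ⟨h + 1, c, fun k => Nat.pow_le_pow_right (by norm_num) (hN k)⟩

theorem Bd.add (hDDU : T_DDU) {N M : ℕ → ℕ} (hN : Bd N) (hM : Bd M) :
    Bd (fun k => N k + M k) := by
  obtain ⟨h, c, hN⟩ := hN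
  obtain ⟨h', c', hM⟩ := hM
  refine ⟨max h h' + 1, max c c', fun k => ?_⟩
  have h1 : N k ≤ Tw (max h h') (k + max c c') :=
    (hN k).trans (Tw_le hDDU (le_max_left _ _) (Nat.add_le_add_left (le_max_left _ _) k))
  have h2 : M k ≤ Tw (max h h') (k + max c c') :=
    (hM k).trans (Tw_le hDDU (le_max_right _ _) (Nat.add_le_add_left (le_max_right _ _) k))
  calc N k + M k ≤ 2 * Tw (max h h') (k + max c c') := by omega
    _ ≤ 2 ^ Tw (max h h') (k + max c c') := two_mul_le_pow _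
    _ = Tw (max h h' + 1) (k + max c c') := rfl

theorem Bd.mul (hDDU : T_DDU) {N M : ℕ → ℕ} (hN : Bd N) (hM : Bd M) :
    Bd (fun k => N k * M k) := by
  refine (Bd.pow (Bd.add hDDU hN hM)).mono fun k => ?_
  rw [pow_add]
  exact Nat.mul_le_mul Nat.lt_two_pow_self.le Nat.lt_two_pow_self.le

theorem card_prop : Nat.card Prop = 2 := by
  classical
  rw [Nat.card_eq_fintype_card]
  exact Fintype.card_prop

theorem card_set' (α : Type) [Finite α] : Nat.card (Set α) = 2 ^ Nat.card α := by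
  classical
  have := Fintype.ofFinite α
  rw [Nat.card_eq_fintype_card, Nat.card_eq_fintype_card, Fintype.card_set]

theorem card_co (k : ℕ) : Nat.card (Co k) = 2 ^ k := by
  show Nat.card (Fin k → Bool) = 2 ^ k
  rw [Nat.card_eq_fintype_card, Fintype.card_fun, Fintype.card_bool, Fintype.card_fin]

theorem pf_TYC (hDDU : T_DDU) : T_TYC := by
  intro Ψ
  show Bd (fun k => Nat.card (Ψ.T (Co k)))
  induction Ψ with
  | un i x => exact (Bd.const 2).mono fun k => (card_prop).le
  | bi i x y =>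
    have h1 : Bd (fun k => 2 ^ k + 1) := Bd.add hDDU (Bd.pow Bd.idk) (Bd.const 1)
    refine (Bd.mul hDDU (Bd.const 2) (Bd.mul hDDU h1 h1)).mono fun k => ?_
    show Nat.card (Prop × Option (Co k) × Option (Co k)) ≤ _
    rw [Nat.card_prod, Nat.card_prod, card_prop, Finite.card_option, card_co]
  | eq x y => exact (Bd.const 2).mono fun k => (card_prop).le
  | mem x X => exact (Bd.const 2).mono fun k => (card_prop).le
  | mod X q r =>
    refine (Bd.const (q + 1)).mono fun k => ?_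
    show Nat.card (ZMod (q + 1)) ≤ q + 1
    rw [Nat.card_zmod]
  | neg φ ih => exact ih
  | and φ ψ ih ih' =>
    refine (Bd.mul hDDU ih ih').mono fun k => ?_
    show Nat.card (φ.T (Co k) × ψ.T (Co k)) ≤ _
    rw [Nat.card_prod]
  | ex x φ ih =>
    refine (Bd.mul hDDU (Bd.pow ih) ih).mono fun k => ?_
    have := MS.finT (Co k) φ
    show Nat.card (Set (φ.T (Co k)) × φ.T (Co k)) ≤ _
    rw [Nat.card_prod, card_set']
  | exS X φ ih =>
    refine (Bd.pow ih).mono fun k => ?_
    have := MS.finT (Co k) φ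
    show Nat.card (Set (φ.T (Co k))) ≤ _
    rw [card_set']

end Pool.Agent.H1.WB
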